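import Pool.Agent.H21.Triple

namespace Pool.Agent.Results.MP_23ff89_al.Pairwise

open Pool.Agent.H21.Triple

lemma pAX : DiagTri (Matrix.toLin' (!![3, 0, 0; 0, 2, 0; 0, 0, 0] : Matrix _ _ ℂ)) (Matrix.toLin' !![0, 0, 1; 0, 0, -3; -12, -6, -1]) :=
  diagTri_of !![1, 0, 0; 0, 0, 1; 0, 1, 0] !![1, 0, 0; 0, 0, 1; 0, 1, 0] _ _
      (by ext i j; fin_cases i <;> fin_cases j <;> simp [Matrix.mul_apply, Fin.sum_univ_succ] <;> norm_num)
      (by
        rw [show (!![1, 0, 0; 0, 0, 1; 0, 1, 0] * !![3, 0, 0; 0, 2, 0; 0, 0, 0] * !![1, 0, 0; 0, 0, 1; 0, 1, 0] : Matrix _ _ ℂ) = !![3, 0, 0; 0, 0, 0; 0, 0, 2] by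
          ext i j; fin_cases i <;> fin_cases j <;> simp [Matrix.mul_apply, Fin.sum_univ_succ] <;> norm_num]
        apply isDiag3 <;> norm_num)
      (by
        rw [show (!![1, 0, 0; 0, 0, 1; 0, 1, 0] * !![0, 0, 1; 0, 0, -3; -12, -6, -1] * !![1, 0, 0; 0, 0, 1; 0, 1, 0] : Matrix _ _ ℂ) = !![0, 1, 0; -12, -1, -6; 0, -3, 0] by
          ext i j; fin_cases i <;> fin_cases j <;> simp [Matrix.mul_apply, Fin.sum_univ_succ] <;> norm_num]
        apply irrTri3 <;> norm_num)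

lemma pXA : DiagTri (Matrix.toLin' (!![0, 0, 1; 0, 0, -3; -12, -6, -1] : Matrix _ _ ℂ)) (Matrix.toLin' !![3, 0, 0; 0, 2, 0; 0, 0, 0]) :=
  diagTri_of !![1, 1, 1; -3, -2, -3; -3, 0, 2] !![-4/5, -2/5, -1/5; 3, 1, 0; -6/5, -3/5, 1/5] _ _
      (by ext i j; fin_cases i <;> fin_cases j <;> simp [Matrix.mul_apply, Fin.sum_univ_succ] <;> norm_num)
      (by
        rw [show (!![-4/5, -2/5, -1/5; 3, 1, 0; -6/5, -3/5, 1/5] * !![0, 0, 1; 0, 0, -3; -12, -6, -1] * !![1, 1, 1; -3, -2, -3; -3, 0, 2] : Matrix _ _ ℂ) = !![-3, 0, 0; 0, 0, 0; 0, 0, 2] by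
          ext i j; fin_cases i <;> fin_cases j <;> simp [Matrix.mul_apply, Fin.sum_univ_succ] <;> norm_num]
        apply isDiag3 <;> norm_num)
      (by
        rw [show (!![-4/5, -2/5, -1/5; 3, 1, 0; -6/5, -3/5, 1/5] * !![3, 0, 0; 0, 2, 0; 0, 0, 0] * !![1, 1, 1; -3, -2, -3; -3, 0, 2] : Matrix _ _ ℂ) = !![0, -4/5, 0; 3, 5, 3; 0, -6/5, 0] by
          ext i j; fin_cases i <;> fin_cases j <;> simp [Matrix.mul_apply, Fin.sum_univ_succ] <;> norm_num]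
        apply irrTri3 <;> norm_num)

lemma pAY : DiagTri (Matrix.toLin' (!![3, 0, 0; 0, 2, 0; 0, 0, 0] : Matrix _ _ ℂ)) (Matrix.toLin' !![0, 3, 0; -4, -9, 2; 0, -3, 0]) :=
  diagTri_of !![1, 0, 0; 0, 1, 0; 0, 0, 1] !![1, 0, 0; 0, 1, 0; 0, 0, 1] _ _
      (by ext i j; fin_cases i <;> fin_cases j <;> simp [Matrix.mul_apply, Fin.sum_univ_succ] <;> norm_num)
      (by
        rw [show (!![1, 0, 0; 0, 1, 0; 0, 0, 1] * !![3, 0, 0; 0, 2, 0; 0, 0, 0] * !![1, 0, 0; 0, 1, 0; 0, 0, 1] : Matrix _ _ ℂ) = !![3, 0, 0; 0, 2, 0; 0, 0, 0] by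
          ext i j; fin_cases i <;> fin_cases j <;> simp [Matrix.mul_apply, Fin.sum_univ_succ] <;> norm_num]
        apply isDiag3 <;> norm_num)
      (by
        rw [show (!![1, 0, 0; 0, 1, 0; 0, 0, 1] * !![0, 3, 0; -4, -9, 2; 0, -3, 0] * !![1, 0, 0; 0, 1, 0; 0, 0, 1] : Matrix _ _ ℂ) = !![0, 3, 0; -4, -9, 2; 0, -3, 0] by
          ext i j; fin_cases i <;> fin_cases j <;> simp [Matrix.mul_apply, Fin.sum_univ_succ] <;> norm_num]
        apply irrTri3 <;> norm_num)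

lemma pYA : DiagTri (Matrix.toLin' (!![0, 3, 0; -4, -9, 2; 0, -3, 0] : Matrix _ _ ℂ)) (Matrix.toLin' !![3, 0, 0; 0, 2, 0; 0, 0, 0]) :=
  diagTri_of !![1, 1, 1; -2, 0, -1; -1, 2, -1] !![-2/3, -1, 1/3; 1/3, 0, 1/3; 4/3, 1, -2/3] _ _
      (by ext i j; fin_cases i <;> fin_cases j <;> simp [Matrix.mul_apply, Fin.sum_univ_succ] <;> norm_num)
      (by
        rw [show (!![-2/3, -1, 1/3; 1/3, 0, 1/3; 4/3, 1, -2/3] * !![0, 3, 0; -4, -9, 2; 0, -3, 0] * !![1, 1, 1; -2, 0, -1; -1, 2, -1] : Matrix _ _ ℂ) = !![-6, 0, 0; 0, 0, 0; 0, 0, -3] by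
          ext i j; fin_cases i <;> fin_cases j <;> simp [Matrix.mul_apply, Fin.sum_univ_succ] <;> norm_num]
        apply isDiag3 <;> norm_num)
      (by
        rw [show (!![-2/3, -1, 1/3; 1/3, 0, 1/3; 4/3, 1, -2/3] * !![3, 0, 0; 0, 2, 0; 0, 0, 0] * !![1, 1, 1; -2, 0, -1; -1, 2, -1] : Matrix _ _ ℂ) = !![2, -2, 0; 1, 1, 1; 0, 4, 2] by
          ext i j; fin_cases i <;> fin_cases j <;> simp [Matrix.mul_apply, Fin.sum_univ_succ] <;> norm_num]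
        apply irrTri3 <;> norm_num)

lemma pXY : DiagTri (Matrix.toLin' (!![0, 0, 1; 0, 0, -3; -12, -6, -1] : Matrix _ _ ℂ)) (Matrix.toLin' !![0, 3, 0; -4, -9, 2; 0, -3, 0]) :=
  diagTri_of !![1, 1, 1; -3, -3, -2; 2, -3, 0] !![-6/5, -3/5, 1/5; -4/5, -2/5, -1/5; 3, 1, 0] _ _
      (by ext i j; fin_cases i <;> fin_cases j <;> simp [Matrix.mul_apply, Fin.sum_univ_succ] <;> norm_num)
      (by
        rw [show (!![-6/5, -3/5, 1/5; -4/5, -2/5, -1/5; 3, 1, 0] * !![0, 0, 1; 0, 0, -3; -12, -6, -1] * !![1, 1, 1; -3, -3, -2; 2, -3, 0] : Matrix _ _ ℂ) = !![2, 0, 0; 0, -3, 0; 0, 0, 0] by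
          ext i j; fin_cases i <;> fin_cases j <;> simp [Matrix.mul_apply, Fin.sum_univ_succ] <;> norm_num]
        apply isDiag3 <;> norm_num)
      (by
        rw [show (!![-6/5, -3/5, 1/5; -4/5, -2/5, -1/5; 3, 1, 0] * !![0, 3, 0; -4, -9, 2; 0, -3, 0] * !![1, 1, 1; -3, -3, -2; 2, -3, 0] : Matrix _ _ ℂ) = !![-18/5, 12/5, 0; -27/5, -7/5, -2; 0, -10, -4] by
          ext i j; fin_cases i <;> fin_cases j <;> simp [Matrix.mul_apply, Fin.sum_univ_succ] <;> norm_num]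
        apply irrTri3 <;> norm_num)

lemma pYX : DiagTri (Matrix.toLin' (!![0, 3, 0; -4, -9, 2; 0, -3, 0] : Matrix _ _ ℂ)) (Matrix.toLin' !![0, 0, 1; 0, 0, -3; -12, -6, -1]) :=
  diagTri_of !![1, 1, 1; -2, -1, 0; -1, -1, 2] !![-2/3, -1, 1/3; 4/3, 1, -2/3; 1/3, 0, 1/3] _ _
      (by ext i j; fin_cases i <;> fin_cases j <;> simp [Matrix.mul_apply, Fin.sum_univ_succ] <;> norm_num)
      (by
        rw [show (!![-2/3, -1, 1/3; 4/3, 1, -2/3; 1/3, 0, 1/3] * !![0, 3, 0; -4, -9, 2; 0, -3, 0] * !![1, 1, 1; -2, -1, 0; -1, -1, 2] : Matrix _ _ ℂ) = !![-6, 0, 0; 0, -3, 0; 0, 0, 0] by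
          ext i j; fin_cases i <;> fin_cases j <;> simp [Matrix.mul_apply, Fin.sum_univ_succ] <;> norm_num]
        apply isDiag3 <;> norm_num)
      (by
        rw [show (!![-2/3, -1, 1/3; 4/3, 1, -2/3; 1/3, 0, 1/3] * !![0, 0, 1; 0, 0, -3; -12, -6, -1] * !![1, 1, 1; -2, -1, 0; -1, -1, 2] : Matrix _ _ ℂ) = !![-2, -4, 0; 1, 5, 6; 0, -2, -4] by
          ext i j; fin_cases i <;> fin_cases j <;> simp [Matrix.mul_apply, Fin.sum_univ_succ] <;> norm_num]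
        apply irrTri3 <;> norm_num)

theorem result : ∃ A B C : Module.End ℂ (Fin 3 → ℂ),
    IsLeonardPair A B ∧ IsLeonardPair A C ∧ IsLeonardPair B C ∧ ¬ IsLeonardTriple A B C := by
  refine ⟨_, _, _, ⟨pAX, pXA⟩, ⟨pAY, pYA⟩, ⟨pXY, pYX⟩, ?_⟩
  rintro ⟨⟨n, b, hA, hX, hY⟩, -⟩
  have hn : n = 3 := by simpa using (Module.finrank_eq_card_basis b).symm
  subst hn
  have e : ∀ f : Module.End ℂ (Fin 3 → ℂ), f (b 0) = LinearMap.toMatrix b b f 0 0 • b 0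
      + LinearMap.toMatrix b b f 1 0 • b 1 + LinearMap.toMatrix b b f 2 0 • b 2 := by
    intro f
    have := b.sum_repr (f (b 0))
    rw [Fin.sum_univ_three] at this
    simp only [LinearMap.toMatrix_apply, this]
  have h1 := e (Matrix.toLin' !![3, 0, 0; 0, 2, 0; 0, 0, 0])
  have h2 := e (Matrix.toLin' !![0, 0, 1; 0, 0, -3; -12, -6, -1])
  have h3 := e (Matrix.toLin' !![0, 3, 0; -4, -9, 2; 0, -3, 0])
  rw [hA (show (1 : Fin 3) ≠ 0 by decide), hA (show (2 : Fin 3) ≠ 0 by decide)] at h1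
  rw [(hX 2 0).1 (by simp)] at h2
  rw [(hY 2 0).1 (by simp)] at h3
  have k2 := (hX 1 0).2 (by simp)
  have k3 := (hY 1 0).2 (by simp)
  have h0 := b.ne_zero 0
  generalize LinearMap.toMatrix b b (Matrix.toLin' !![3, 0, 0; 0, 2, 0; 0, 0, 0]) 0 0 = t at h1
  generalize LinearMap.toMatrix b b (Matrix.toLin' !![0, 0, 1; 0, 0, -3; -12, -6, -1]) 0 0 = a at h2
  generalize LinearMap.toMatrix b b (Matrix.toLin' !![0, 3, 0; -4, -9, 2; 0, -3, 0]) 0 0 = a' at h3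
  generalize LinearMap.toMatrix b b (Matrix.toLin' !![0, 0, 1; 0, 0, -3; -12, -6, -1]) 1 0 = c at h2 k2
  generalize LinearMap.toMatrix b b (Matrix.toLin' !![0, 3, 0; -4, -9, 2; 0, -3, 0]) 1 0 = c' at h3 k3
  generalize b 0 = v at h0 h1 h2 h3
  generalize b 1 = u at h2 h3
  simp only [funext_iff, Fin.forall_fin_succ] at h1 h2 h3
  simp [Matrix.mulVec, dotProduct, Fin.sum_univ_succ] at h1 h2 h3
  obtain ⟨r0, r1, r2⟩ := h1
  obtain ⟨s0, s1, s2⟩ := h2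
  obtain ⟨t0, t1, t2⟩ := h3
  apply h0
  have q1 : v 0 * v 1 = 0 := by
    rcases r0 with rfl | r0
    · rcases r1 with r1 | r1
      · norm_num at r1
      · simp [r1]
    · simp [r0]
  have q2 : v 0 * v 2 = 0 := by
    rcases r0 with rfl | r0
    · rcases r2 with r1 | r1
      · norm_num at r1
      · simp [r1]
    · simp [r0]
  have q3 : v 1 * v 2 = 0 := by
    rcases r1 with rfl | r0
    · rcases r2 with r1 | r1
      · norm_num at r1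
      · simp [r1]
    · simp [r0]
  have z0 : v 0 = 0 := by
    by_contra hv
    have v1 : v 1 = 0 := (mul_eq_zero.1 q1).resolve_left hv
    have v2 : v 2 = 0 := (mul_eq_zero.1 q2).resolve_left hv
    simp [v1, v2, k2] at s1 t1
    simp [s1, hv] at t1
  have z1 : v 1 = 0 := by
    by_contra hv
    have v2 : v 2 = 0 := (mul_eq_zero.1 q3).resolve_left hv
    simp [z0, v2, k2] at s0 t0
    simp [s0, hv] at t0
  have z2 : v 2 = 0 := by
    simp [z0, z1, k3] at s0 t0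
    simpa [t0] using s0
  funext i; fin_cases i <;> simp [z0, z1, z2]

end Pool.Agent.Results.MP_23ff89_al.Pairwise
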